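import Pool.Agent.Lib.MP_02bc1b_co.Main

namespace Pool.Agent.Results.MP_02bc1b_co.TriangleFreeC4Sat

open SimpleGraph Pool.Agent.MP_02bc1b_co

/-- For every `n ≥ 2 ^ 23` there is a triangle-free `C_4`-saturated graph on `n` vertices, and
`sat(n, K_3, C_4) = 0`. -/
theorem result : ∀ n : ℕ, 2 ^ 23 ≤ n →
    (∃ G : SimpleGraph (Fin n), IsSaturated (cycleGraph 4) G ∧ G.CliqueFree 3) ∧
      sat n (⊤ : SimpleGraph (Fin 3)) (cycleGraph 4) = 0 :=
  fun n hn => ⟨exists_triangleFree_saturated n hn, sat_eq_zero n hn⟩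

end Pool.Agent.Results.MP_02bc1b_co.TriangleFreeC4Sat
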